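import Mathlib
import Pool.Agent.K.MP_54e702_co.C0

-- part Pool.Agent.P.MP_54e702_co.Dense
section

set_option autoImplicit false

open Finset

namespace Pool.Agent.P.MP_54e702_co

/-- Covering a finite group by translates of a set of density at least one half. -/
lemma translates {G : Type*} [AddCommGroup G] [Fintype G] [DecidableEq G] (B : Finset G)
    (hB : Fintype.card G ≤ 2 * B.card) (t : ℕ) :
    ∃ T : Finset G, T.card ≤ t ∧
      2 ^ t * (univ.filter fun x : G => ∀ β ∈ T, x - β ∉ B).card ≤ Fintype.card G := by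
  induction t with
  | zero => exact ⟨∅, le_rfl, by simp⟩
  | succ t ih =>
    obtain ⟨T, hT, hU⟩ := ih
    set U := univ.filter fun x : G => ∀ β ∈ T, x - β ∉ B with hUdef
    have hsum : ∑ β : G, (U.filter fun x => x - β ∈ B).card = U.card * B.card := by
      simp only [Finset.card_filter]
      rw [Finset.sum_comm]
      have : ∀ x ∈ U, (∑ β : G, if x - β ∈ B then 1 else 0) = B.card := by
        intro x _
        rw [← Finset.card_filter]
        refine Finset.card_bij (fun β _ => x - β) ?_ ?_ ?_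
        · intro β hβ; exact (Finset.mem_filter.mp hβ).2
        · intro a _ b _ hab; exact sub_right_injective hab
        · intro b hb; exact ⟨x - b, by simpa using hb, by simp⟩
      rw [Finset.sum_congr rfl this]; simp
    have hex : ∃ β ∈ (univ : Finset G), U.card ≤ 2 * (U.filter fun x => x - β ∈ B).card := by
      apply Finset.exists_le_of_sum_le Finset.univ_nonempty
      rw [← Finset.mul_sum, hsum]
      simp only [Finset.sum_const, Finset.card_univ, smul_eq_mul]
      nlinarith [Nat.mul_le_mul_left U.card hB]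
    obtain ⟨β, -, hβ⟩ := hex
    refine ⟨insert β T, (Finset.card_insert_le _ _).trans (by omega), ?_⟩
    have e : (univ.filter fun x : G => ∀ γ ∈ insert β T, x - γ ∉ B)
        = U.filter fun x => ¬ (x - β ∈ B) := by
      ext x
      simp only [hUdef, Finset.mem_filter, Finset.mem_univ, true_and, Finset.forall_mem_insert]
      tauto
    rw [e]
    have := Finset.card_filter_add_card_filter_not (s := U) (fun x => x - β ∈ B)
    have h2 : 2 * (U.filter fun x => ¬ (x - β ∈ B)).card ≤ U.card := by omega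
    calc 2 ^ (t + 1) * (U.filter fun x => ¬ (x - β ∈ B)).card
        = 2 ^ t * (2 * (U.filter fun x => ¬ (x - β ∈ B)).card) := by ring
      _ ≤ 2 ^ t * U.card := Nat.mul_le_mul_left _ h2
      _ ≤ _ := hU

lemma translates_cover {G : Type*} [AddCommGroup G] [Fintype G] [DecidableEq G] (B : Finset G)
    (hB : Fintype.card G ≤ 2 * B.card) (t : ℕ) (ht : Fintype.card G < 2 ^ t) :
    ∃ T : Finset G, T.card ≤ t ∧ ∀ x : G, ∃ β ∈ T, x - β ∈ B := by
  obtain ⟨T, hT, hU⟩ := translates B hB t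
  refine ⟨T, hT, fun x => ?_⟩
  by_contra hx
  push Not at hx
  have : 0 < (univ.filter fun x : G => ∀ β ∈ T, x - β ∉ B).card :=
    Finset.card_pos.mpr ⟨x, by simpa using hx⟩
  nlinarith

/-- Two different subsets of the same size have equal sums for a `1 / |G|` fraction of
assignments. -/
lemma card_collide {G : Type*} [AddCommGroup G] [Fintype G] [DecidableEq G] {k : ℕ}
    (I J : Finset (Fin k)) (hIJ : I ≠ J) (hc : I.card = J.card) :
    Fintype.card G * (univ.filter fun a : Fin k → G => ∑ i ∈ I, a i = ∑ i ∈ J, a i).card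
      = Fintype.card (Fin k → G) := by
  obtain ⟨i0, hi0I, hi0J⟩ : ∃ i ∈ I, i ∉ J := by
    by_contra hcon
    push Not at hcon
    exact hIJ (Finset.eq_of_subset_of_card_le hcon hc.ge)
  let f : (Fin k → G) →+ G :=
    { toFun := fun a => ∑ i ∈ I, a i - ∑ i ∈ J, a i
      map_zero' := by simp
      map_add' := by
        intro a b
        simp only [Pi.add_apply, Finset.sum_add_distrib]
        abel }
  have hsurj : ∀ y : G, y ∈ Set.range f := by
    intro y
    refine ⟨Pi.single i0 y, ?_⟩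
    show ∑ i ∈ I, (Pi.single i0 y : Fin k → G) i - ∑ i ∈ J, (Pi.single i0 y : Fin k → G) i = y
    rw [Finset.sum_pi_single', Finset.sum_pi_single', if_pos hi0I, if_neg hi0J, sub_zero]
  have hfib : ∀ y : G, (univ.filter fun a : Fin k → G => f a = y).card
      = (univ.filter fun a : Fin k → G => f a = 0).card := fun y =>
    AddMonoidHom.card_fiber_eq_of_mem_range f (hsurj y) (hsurj 0)
  have htot : Fintype.card (Fin k → G)
      = ∑ y : G, (univ.filter fun a : Fin k → G => f a = y).card := by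
    rw [← Finset.card_univ]
    exact Finset.card_eq_sum_card_fiberwise (fun _ _ => Finset.mem_univ _)
  rw [htot, Finset.sum_congr rfl fun y _ => hfib y]
  simp only [Finset.sum_const, Finset.card_univ, smul_eq_mul]
  congr 2
  ext a
  simp only [Finset.mem_filter, Finset.mem_univ, true_and]
  show _ ↔ ∑ i ∈ I, a i - ∑ i ∈ J, a i = 0
  rw [sub_eq_zero]

/-- In a group of order `k.choose h` some `k` elements have `h`-subset sums of density
at least one half. -/
lemma dense_sums {G : Type*} [AddCommGroup G] [Fintype G] [DecidableEq G] (k h : ℕ)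
    (hG : Fintype.card G = k.choose h) :
    ∃ a : Fin k → G, Fintype.card G ≤
      2 * ((powersetCard h (univ : Finset (Fin k))).image fun I => ∑ i ∈ I, a i).card := by
  set P := powersetCard h (univ : Finset (Fin k)) with hP
  have hPc : P.card = Fintype.card G := by simp [hP, hG]
  have hKpos : 0 < Fintype.card G := Fintype.card_pos
  set E : (Fin k → G) → ℕ := fun a =>
    ∑ I ∈ P, (P.filter fun J => ∑ i ∈ J, a i = ∑ i ∈ I, a i).card with hE
  have hsum : ∑ a : Fin k → G, E a ≤ ∑ _a : Fin k → G, 2 * Fintype.card G := by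
    simp only [hE, Finset.card_filter]
    rw [Finset.sum_comm]
    have : ∀ I ∈ P, (∑ a : Fin k → G, ∑ J ∈ P, if ∑ i ∈ J, a i = ∑ i ∈ I, a i then 1 else 0)
        ≤ 2 * Fintype.card (Fin k → G) := by
      intro I hI
      rw [Finset.sum_comm, ← Finset.add_sum_erase _ _ hI]
      have h1 : (∑ a : Fin k → G, if ∑ i ∈ I, a i = ∑ i ∈ I, a i then 1 else 0)
          = Fintype.card (Fin k → G) := by simp
      have h2 : Fintype.card G * ∑ J ∈ P.erase I,
          (∑ a : Fin k → G, if ∑ i ∈ J, a i = ∑ i ∈ I, a i then 1 else 0)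
          ≤ Fintype.card G * Fintype.card (Fin k → G) := by
        rw [Finset.mul_sum]
        have : ∀ J ∈ P.erase I, Fintype.card G *
            (∑ a : Fin k → G, if ∑ i ∈ J, a i = ∑ i ∈ I, a i then 1 else 0)
            = Fintype.card (Fin k → G) := by
          intro J hJ
          rw [← Finset.card_filter]
          obtain ⟨hJI, hJP⟩ := Finset.mem_erase.mp hJ
          refine card_collide J I hJI ?_
          rw [(Finset.mem_powersetCard.mp hJP).2, (Finset.mem_powersetCard.mp hI).2]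
        rw [Finset.sum_congr rfl this, Finset.sum_const, smul_eq_mul]
        refine Nat.mul_le_mul_right _ ?_
        rw [← hPc]; exact Finset.card_erase_le
      have h3 := Nat.le_of_mul_le_mul_left h2 hKpos
      omega
    refine (Finset.sum_le_sum this).trans (le_of_eq ?_)
    simp only [Finset.sum_const, smul_eq_mul, Finset.card_univ, hPc]
    ring
  obtain ⟨a, -, ha⟩ := Finset.exists_le_of_sum_le Finset.univ_nonempty hsum
  refine ⟨a, ?_⟩
  set f : Finset (Fin k) → G := fun I => ∑ i ∈ I, a i with hf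
  set S := P.image f with hS
  have h1 : P.card = ∑ y ∈ S, (P.filter fun J => f J = y).card :=
    Finset.card_eq_sum_card_image f P
  have h2 : E a = ∑ y ∈ S, (P.filter fun J => f J = y).card ^ 2 := by
    have : E a = ∑ I ∈ P, (fun y => (P.filter fun J => f J = y).card) (f I) := rfl
    rw [this, Finset.sum_comp (fun y => (P.filter fun J => f J = y).card) f]
    refine Finset.sum_congr rfl fun y _ => ?_
    rw [smul_eq_mul, sq]
  have h3 : (∑ y ∈ S, (P.filter fun J => f J = y).card) ^ 2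
      ≤ S.card * ∑ y ∈ S, (P.filter fun J => f J = y).card ^ 2 := sq_sum_le_card_mul_sum_sq
  rw [← h1, ← h2, hPc] at h3
  have h4 : Fintype.card G * Fintype.card G ≤ Fintype.card G * (2 * S.card) := by
    nlinarith [Nat.mul_le_mul_left S.card ha]
  exact Nat.le_of_mul_le_mul_left h4 hKpos

end Pool.Agent.P.MP_54e702_co
end

-- part Pool.Agent.P.MP_54e702_co.Main
section

set_option autoImplicit false

open Finset Filter
open scoped Pointwise

namespace Pool.Agent.P.MP_54e702_co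

lemma exists_coprime_near (D : ℕ) (hD : 0 < D) (y : ℝ) (hy : 0 ≤ y) :
    ∃ M : ℕ, Nat.Coprime M D ∧ 0 < M ∧ y ≤ M ∧ (M : ℝ) ≤ y + D + 1 := by
  refine ⟨1 + D * ⌈y / D⌉₊, by simp, by omega, ?_, ?_⟩
  · have hD' : (0 : ℝ) < D := by exact_mod_cast hD
    have h1 : y / D ≤ (⌈y / D⌉₊ : ℝ) := Nat.le_ceil _
    rw [div_le_iff₀ hD'] at h1
    push_cast; linarith
  · have hD' : (0 : ℝ) < D := by exact_mod_cast hD
    have h1 : (⌈y / D⌉₊ : ℝ) < y / D + 1 := Nat.ceil_lt_add_one (by positivity)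
    have h2 : (D : ℝ) * (⌈y / D⌉₊ : ℝ) ≤ D * (y / D + 1) := mul_le_mul_of_nonneg_left h1.le hD'.le
    have h3 : (D : ℝ) * (y / D + 1) = y + D := by field_simp
    push_cast; linarith

/-- Asymptotic form of `lift_all`. -/
lemma lift_all_asymp (k h K t : ℕ) (hh : 1 ≤ h) (hK : 0 < K) (hk : 0 < k) (ht : 0 < t)
    (a : Fin k → ZMod K) (T : Finset (ZMod K)) (hT : T.card ≤ t)
    (hcov : ∀ x : ZMod K, ∃ β ∈ T, ∃ I : Finset (Fin k), I.card = h ∧ x - β = ∑ i ∈ I, a i)
    (P : ℝ) (hP : (t : ℝ) * k ^ h * (h + 1) ^ (h + 1) / (K * h ^ h) < P) :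
    ∃ N : ℕ, ∀ n : ℕ, N ≤ n → ∃ A : Finset (ZMod n), (∀ g : ZMod n, g ∈ (h + 1) • A) ∧
      (A.card : ℝ) ≤ P ^ ((1 : ℝ) / ((h + 1 : ℕ) : ℝ)) * (n : ℝ) ^ ((1 : ℝ) / ((h + 1 : ℕ) : ℝ)) := by
  obtain ⟨D, C, hD, H⟩ := lift_all k h K t hh hK a T hT hcov
  set σ : ℝ := (1 : ℝ) / ((h + 1 : ℕ) : ℝ) with hσ
  have hσpos : 0 < σ := by rw [hσ]; positivity
  have hh' : (0 : ℝ) < h := by exact_mod_cast hh
  have hK' : (0 : ℝ) < K := by exact_mod_cast hK
  have hk' : (0 : ℝ) < k := by exact_mod_cast hk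
  have ht' : (0 : ℝ) < t := by exact_mod_cast ht
  have hroot : ∀ z : ℝ, 0 ≤ z → (z ^ σ) ^ (h + 1) = z := by
    intro z hz
    rw [hσ, one_div]
    exact Real.rpow_inv_natCast_pow hz (by omega)
  set κ : ℝ := (h * t / (k * K) : ℝ) ^ σ with hκ
  have hκpos : 0 < κ := Real.rpow_pos_of_pos (by positivity) _
  have hκpow : κ ^ (h + 1) = h * t / (k * K) := hroot _ (by positivity)
  set α : ℝ := k * κ * (h + 1) / h with hα
  have hαpos : 0 < α := by positivity
  have hαpow : α ^ (h + 1) = (t : ℝ) * k ^ h * (h + 1) ^ (h + 1) / (K * h ^ h) := by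
    rw [hα, div_pow, mul_pow, mul_pow, hκpow]
    field_simp
    ring
  have hPpos : 0 < P := lt_trans (by positivity) hP
  have hαP : α < P ^ σ := by
    refine lt_of_pow_lt_pow_left₀ (h + 1) (Real.rpow_nonneg hPpos.le _) ?_
    rw [hαpow, hroot P hPpos.le]; exact hP
  have hlim : Tendsto (fun n : ℕ => (n : ℝ) ^ σ) atTop atTop :=
    (tendsto_rpow_atTop hσpos).comp tendsto_natCast_atTop_atTop
  set β : ℝ := k * (D + 1 + 2 * C) + t * (h + 2) with hβ
  have hev1 := hlim.eventually_ge_atTop (β / (P ^ σ - α))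
  have hev2 := hlim.eventually_ge_atTop (C / κ)
  obtain ⟨N, hN⟩ := eventually_atTop.mp ((hev1.and hev2).and (eventually_ge_atTop 1))
  refine ⟨N, fun n hn => ?_⟩
  obtain ⟨⟨h1, h2⟩, h3⟩ := hN n hn
  have hn' : (0 : ℝ) < n := by exact_mod_cast h3
  set z : ℝ := (n : ℝ) ^ σ with hz
  have hzpos : 0 < z := Real.rpow_pos_of_pos hn' _
  have hzpow : z ^ (h + 1) = n := hroot _ hn'.le
  set y : ℝ := κ * z with hy
  have hypos : 0 < y := by positivity
  obtain ⟨M, hMD, hM, hyM, hMy⟩ := exists_coprime_near D hD y hypos.le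
  have hCM : C ≤ M := by
    rw [div_le_iff₀ hκpos] at h2
    have : (C : ℝ) ≤ M := by nlinarith
    exact_mod_cast this
  obtain ⟨A, hA1, hA2⟩ := H M hMD hCM hM n h3
  refine ⟨A, hA1, ?_⟩
  have hA3 : (A.card : ℝ) ≤ k * (M + 2 * C) + t * (((n / (K * M ^ h) : ℕ) : ℝ) + h + 2) := by
    exact_mod_cast hA2
  have hdiv : ((n / (K * M ^ h) : ℕ) : ℝ) ≤ n / (K * y ^ h) := by
    refine Nat.cast_div_le.trans ?_
    push_cast
    refine div_le_div_of_nonneg_left hn'.le (by positivity) ?_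
    exact mul_le_mul_of_nonneg_left (pow_le_pow_left₀ hypos.le hyM h) hK'.le
  have hyp : y ^ (h + 1) = h * t / (k * K) * n := by rw [hy, mul_pow, hκpow, hzpow]
  have hq : (t : ℝ) * (n / (K * y ^ h)) = k * y / h := by
    rw [pow_succ] at hyp
    field_simp at hyp ⊢
    linarith
  have hαz : α * z = k * y + k * y / h := by
    rw [hα, hy]; field_simp
  rw [div_le_iff₀ (by linarith)] at h1
  have h4 : (t : ℝ) * ((n / (K * M ^ h) : ℕ) : ℝ) ≤ k * y / h := by
    rw [← hq]; exact mul_le_mul_of_nonneg_left hdiv ht'.le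
  have h5 : (k : ℝ) * M ≤ k * (y + D + 1) := mul_le_mul_of_nonneg_left hMy hk'.le
  calc (A.card : ℝ) ≤ k * M + t * ((n / (K * M ^ h) : ℕ) : ℝ) + (k * (2 * C) + t * (h + 2)) := by
        linarith
    _ ≤ α * z + β := by rw [hαz, hβ]; linarith
    _ ≤ P ^ σ * z := by linarith

lemma desc_lower (k : ℕ) (j : ℕ) (hj : j ≤ k) :
    (k : ℝ) ^ j * (2 * k - j ^ 2) ≤ 2 * k * (k.descFactorial j : ℝ) := by
  induction j with
  | zero => simp
  | succ j ih =>
    have ih' := ih (by omega)
    rw [Nat.descFactorial_succ, Nat.cast_mul, Nat.cast_sub (by omega)]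
    have hjk : (0 : ℝ) ≤ (k : ℝ) - j := by
      have : (j : ℝ) ≤ k := by exact_mod_cast (by omega : j ≤ k)
      linarith
    have h1 := mul_le_mul_of_nonneg_left ih' hjk
    have hkj : (0 : ℝ) ≤ (k : ℝ) ^ j := by positivity
    have hj0 : (0 : ℝ) ≤ j := by positivity
    have hk0 : (0 : ℝ) ≤ k := by positivity
    have h2 : (k : ℝ) * (2 * k - (j + 1) ^ 2) ≤ (k - j) * (2 * k - j ^ 2) := by
      nlinarith [mul_nonneg hj0 (mul_nonneg hj0 hj0)]
    have h3 := mul_le_mul_of_nonneg_left h2 hkj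
    push_cast
    rw [pow_succ]
    nlinarith

lemma pow_le_two_choose (h : ℕ) (hh : 1 ≤ h) :
    (((h * h : ℕ) : ℝ)) ^ h ≤ 2 * (h.factorial : ℝ) * ((h * h).choose h : ℝ) := by
  have h1 := desc_lower (h * h) h (Nat.le_mul_self h)
  rw [Nat.descFactorial_eq_factorial_mul_choose] at h1
  have hh' : (0 : ℝ) < h := by exact_mod_cast hh
  have hk : (0 : ℝ) < ((h * h : ℕ) : ℝ) := by positivity
  have e : 2 * ((h * h : ℕ) : ℝ) - (h : ℝ) ^ 2 = ((h * h : ℕ) : ℝ) := by push_cast; ring
  rw [e] at h1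
  rw [Nat.cast_mul h.factorial] at h1
  have h2 : ((h * h : ℕ) : ℝ) * (((h * h : ℕ) : ℝ)) ^ h
      ≤ ((h * h : ℕ) : ℝ) * (2 * (h.factorial : ℝ) * ((h * h).choose h : ℝ)) := by linarith
  exact le_of_mul_le_mul_left h2 hk

lemma log_choose_le (h : ℕ) (hh : 1 ≤ h) :
    (Nat.log 2 ((h * h).choose h) : ℝ) * Real.log 2 ≤ h * (1 + Real.log h) := by
  have hh' : (0 : ℝ) < h := by exact_mod_cast hh
  have hK : 0 < (h * h).choose h := Nat.choose_pos (Nat.le_mul_self h)
  have h1 : (2 : ℝ) ^ Nat.log 2 ((h * h).choose h) ≤ ((h * h).choose h : ℝ) := by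
    exact_mod_cast Nat.pow_log_le_self 2 hK.ne'
  have h2 : ((h * h).choose h : ℝ) ≤ ((h * h : ℕ) : ℝ) ^ h / (h.factorial : ℝ) :=
    Nat.choose_le_pow_div h (h * h)
  have h3 : (h : ℝ) ^ h / (h.factorial : ℝ) ≤ Real.exp h := Real.pow_div_factorial_le_exp _ hh'.le h
  have h4 : ((h * h : ℕ) : ℝ) ^ h / (h.factorial : ℝ) ≤ (h : ℝ) ^ h * Real.exp h := by
    push_cast
    rw [mul_pow, mul_div_assoc]
    exact mul_le_mul_of_nonneg_left h3 (by positivity)
  have h5 := Real.log_le_log (by positivity) (h1.trans (h2.trans h4))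
  rw [Real.log_pow, Real.log_mul (by positivity) (by positivity), Real.log_pow, Real.log_exp] at h5
  linarith

theorem main_all (s : ℕ) (hs : 2 ≤ s) : ∃ N : ℕ, ∀ n : ℕ, N ≤ n → ∃ A : Finset (ZMod n),
    (∀ g : ZMod n, g ∈ s • A) ∧
      (A.card : ℝ) ≤ (8 * s * (1 + Real.log s) * (s.factorial : ℝ)) ^ ((1 : ℝ) / (s : ℝ)) *
        (n : ℝ) ^ ((1 : ℝ) / (s : ℝ)) := by
  obtain ⟨h, rfl⟩ : ∃ h, s = h + 1 := ⟨s - 1, by omega⟩
  have hh : 1 ≤ h := by omega
  set K := (h * h).choose h with hKdef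
  have hK : 0 < K := Nat.choose_pos (Nat.le_mul_self h)
  have : NeZero K := ⟨hK.ne'⟩
  obtain ⟨a, ha⟩ := dense_sums (G := ZMod K) (h * h) h (by rw [ZMod.card])
  obtain ⟨T, hT, hcov⟩ := translates_cover _ ha (Nat.log 2 K + 1)
    (by rw [ZMod.card]; exact Nat.lt_pow_succ_log_self (by norm_num) K)
  refine lift_all_asymp (h * h) h K (Nat.log 2 K + 1) hh hK (by positivity) (by omega) a T hT ?_ _ ?_
  · intro x
    obtain ⟨β, hβ, hx⟩ := hcov x
    obtain ⟨I, hI, hIx⟩ := Finset.mem_image.mp hx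
    exact ⟨β, hβ, I, (Finset.mem_powersetCard.mp hI).2, hIx.symm⟩
  · have hh' : (0 : ℝ) < h := by exact_mod_cast hh
    have hh1 : (1 : ℝ) ≤ h := by exact_mod_cast hh
    have hK' : (0 : ℝ) < K := by exact_mod_cast hK
    have h1 := pow_le_two_choose h hh
    rw [← hKdef] at h1
    have h2 := log_choose_le h hh
    rw [← hKdef] at h2
    have h3 : ((h : ℝ) + 1) ^ h ≤ Real.exp 1 * (h : ℝ) ^ h := by
      have e1 : (h : ℝ) + 1 = (1 / h + 1) * h := by field_simp; ring
      have e2 : (1 / (h : ℝ) + 1) ^ h ≤ Real.exp (1 / h) ^ h :=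
        pow_le_pow_left₀ (by positivity) (Real.add_one_le_exp _) h
      have e3 : Real.exp (1 / h) ^ h = Real.exp 1 := by
        rw [← Real.exp_nat_mul]; congr 1; field_simp
      rw [e1, mul_pow]
      exact mul_le_mul_of_nonneg_right (e3 ▸ e2) (by positivity)
    have he := Real.exp_one_lt_d9
    have hl := Real.log_two_gt_d9
    have hlog0 : 0 ≤ Real.log h := Real.log_nonneg hh1
    have hlog1 : Real.log h ≤ Real.log ((h + 1 : ℕ) : ℝ) :=
      Real.log_le_log hh' (by push_cast; linarith)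
    set L : ℝ := (Nat.log 2 K : ℝ) with hL
    have hL0 : 0 ≤ L := by positivity
    have ht : 2 * Real.exp 1 * (L + 1) < 8 * ((h + 1 : ℕ) : ℝ) * (1 + Real.log ((h + 1 : ℕ) : ℝ)) := by
      have a1 : 2 * Real.exp 1 * L ≤ 8 * (L * Real.log 2) := by nlinarith
      have a2 : (h : ℝ) * (1 + Real.log h) ≤ h * (1 + Real.log ((h + 1 : ℕ) : ℝ)) :=
        mul_le_mul_of_nonneg_left (by linarith) hh'.le
      have a3 : ((h + 1 : ℕ) : ℝ) = h + 1 := by push_cast; ring
      generalize Real.log ((h + 1 : ℕ) : ℝ) = Λ at *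
      rw [a3]
      nlinarith
    have hf : (0 : ℝ) < (h.factorial : ℝ) := by positivity
    rw [div_lt_iff₀ (by positivity), Nat.factorial_succ]
    have hhp : (0 : ℝ) < (h : ℝ) ^ h := by positivity
    calc ((Nat.log 2 K + 1 : ℕ) : ℝ) * ((h * h : ℕ) : ℝ) ^ h * (h + 1) ^ (h + 1)
        = (L + 1) * (h + 1) * (((h * h : ℕ) : ℝ) ^ h * (h + 1) ^ h) := by
          rw [hL]; push_cast; ring
      _ ≤ (L + 1) * (h + 1) * ((2 * (h.factorial : ℝ) * K) * (Real.exp 1 * (h : ℝ) ^ h)) := by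
          refine mul_le_mul_of_nonneg_left ?_ (by positivity)
          exact mul_le_mul h1 h3 (by positivity) (by positivity)
      _ = (2 * Real.exp 1 * (L + 1)) * ((h + 1) * h.factorial * (K * (h : ℝ) ^ h)) := by ring
      _ < (8 * ((h + 1 : ℕ) : ℝ) * (1 + Real.log ((h + 1 : ℕ) : ℝ))) *
          ((h + 1) * h.factorial * (K * (h : ℝ) ^ h)) :=
          mul_lt_mul_of_pos_right ht (by positivity)
      _ = _ := by push_cast; ring

end Pool.Agent.P.MP_54e702_co
end
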