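import Mathlib
import Pool.Agent.K.MP_54e702_co.C0

set_option autoImplicit false

open Finset Filter
open scoped Pointwise

namespace Pool.Agent.P.MP_54e702_co

/-- Asymptotic form of `lift_exact`. -/
lemma lift_exact_asymp (k h K : ℕ) (hh : 1 ≤ h) (hK : 0 < K) (a : Fin k → ZMod K)
    (hcov : ∀ x : ZMod K, ∃ I : Finset (Fin k), I.card = h ∧ x = ∑ i ∈ I, a i)
    (c : ℝ) (hc : (k : ℝ) < c * (K : ℝ) ^ ((1 : ℝ) / (h : ℝ))) (N : ℕ) :
    ∃ n : ℕ, N ≤ n ∧ ∃ A : Finset (ZMod n), (∀ g : ZMod n, g ∈ h • A) ∧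
      (A.card : ℝ) ≤ c * (n : ℝ) ^ ((1 : ℝ) / (h : ℝ)) := by
  obtain ⟨D, C, hD, H⟩ := lift_exact k h K hh hK a hcov
  set γ : ℝ := c * (K : ℝ) ^ ((1 : ℝ) / (h : ℝ)) with hγ
  obtain ⟨q, hq⟩ := exists_nat_ge (max (max (N : ℝ) C) (k * (2 * C) / (γ - k)))
  have hqM : q ≤ 1 + D * q := by nlinarith
  have hqM' : (q : ℝ) ≤ ((1 + D * q : ℕ) : ℝ) := by exact_mod_cast hqM
  have hNq : N ≤ q := by
    have : (N : ℝ) ≤ q := ((le_max_left _ _).trans (le_max_left _ _)).trans hq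
    exact_mod_cast this
  have hCq : C ≤ q := by
    have : (C : ℝ) ≤ q := ((le_max_right _ _).trans (le_max_left _ _)).trans hq
    exact_mod_cast this
  have h3 : k * (2 * C) / (γ - k) ≤ (q : ℝ) := (le_max_right _ _).trans hq
  set M := 1 + D * q with hM
  have hMpos : 0 < M := by omega
  obtain ⟨A, hA1, hA2⟩ := H M (by simp [hM]) (by omega) hMpos
  refine ⟨K * M ^ h, ?_, A, hA1, ?_⟩
  · have h1 : M ≤ M ^ h := Nat.le_self_pow (by omega) M
    have h2 : M ^ h ≤ K * M ^ h := Nat.le_mul_of_pos_left _ hK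
    omega
  · have e : ((K * M ^ h : ℕ) : ℝ) ^ ((1 : ℝ) / (h : ℝ)) = (K : ℝ) ^ ((1 : ℝ) / (h : ℝ)) * M := by
      push_cast
      rw [Real.mul_rpow (by positivity) (by positivity), one_div,
        Real.pow_rpow_inv_natCast (by positivity) (by omega)]
    rw [e, ← mul_assoc, ← hγ]
    have hA3 : (A.card : ℝ) ≤ k * (M + 2 * C) := by exact_mod_cast hA2
    rw [div_le_iff₀ (by linarith)] at h3
    have h4 : (q : ℝ) * (γ - k) ≤ M * (γ - k) := mul_le_mul_of_nonneg_right hqM' (by linarith)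
    linarith

def base130 : Fin 18 → ZMod 130 :=
  ![0, 9, 26, 29, 33, 51, 52, 57, 63, 65, 67, 73, 78, 79, 97, 101, 104, 121]

lemma base130_cover : ∀ x : ZMod 130, ∃ i j : Fin 18, i ≠ j ∧ x = base130 i + base130 j := by
  decide +kernel

theorem main_two (c : ℝ) (hc : Real.sqrt (162 / 65) < c) (N : ℕ) :
    ∃ n : ℕ, N ≤ n ∧ ∃ A : Finset (ZMod n), (∀ g : ZMod n, g ∈ A + A) ∧
      (A.card : ℝ) ≤ c * Real.sqrt n := by
  obtain ⟨n, hn, A, hA1, hA2⟩ := lift_exact_asymp 18 2 130 (by norm_num) (by norm_num) base130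
    (by
      intro x
      obtain ⟨i, j, hij, hx⟩ := base130_cover x
      exact ⟨{i, j}, Finset.card_pair hij, by rw [Finset.sum_pair hij]; exact hx⟩)
    c (by
      have e : ((130 : ℕ) : ℝ) ^ ((1 : ℝ) / ((2 : ℕ) : ℝ)) = Real.sqrt 130 := by
        rw [Real.sqrt_eq_rpow]; norm_num
      rw [e]
      have h1 : Real.sqrt (162 / 65) * Real.sqrt 130 = 18 := by
        rw [← Real.sqrt_mul (by norm_num)]
        rw [show (162 / 65 * 130 : ℝ) = 18 ^ 2 by norm_num, Real.sqrt_sq (by norm_num)]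
      have h2 : 0 < Real.sqrt 130 := Real.sqrt_pos.mpr (by norm_num)
      have := mul_lt_mul_of_pos_right hc h2
      push_cast
      linarith) N
  refine ⟨n, hn, A, fun g => by simpa [two_nsmul] using hA1 g, ?_⟩
  rw [Real.sqrt_eq_rpow]
  simpa using hA2

end Pool.Agent.P.MP_54e702_co
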